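import Pool.Agent.Helper50.MB.Goals

/-! Project MB, packet ENC: the innermost arc over a gap. -/

namespace Pool.Agent.Helper35.MB

open Pool.Agent.Helper50.MB

/-- `o` is the innermost arc over the gap just before `p`. -/
def IsE (a : ℤ → ℤ) (p : ℤ) (o : Fc a) : Prop :=
  (∀ y, y < p → p ≤ a y → ∃ x : {x : ℤ // x < a x}, o = some x ∧ y ≤ x.1) ∧
    ∀ x : {x : ℤ // x < a x}, o = some x → x.1 < p ∧ p ≤ a x.1

theorem IsE.uniq {a : ℤ → ℤ} {p : ℤ} {o o' : Fc a} (h : IsE a p o) (h' : IsE a p o') :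
    o = o' := by
  rcases o with _ | x
  · rcases o' with _ | x'
    · rfl
    · obtain ⟨h1, h2⟩ := h'.2 x' rfl
      obtain ⟨x, hx, -⟩ := h.1 x'.1 h1 h2
      exact absurd hx (by simp)
  · rcases o' with _ | x'
    · obtain ⟨h1, h2⟩ := h.2 x rfl
      obtain ⟨x, hx, -⟩ := h'.1 x.1 h1 h2
      exact absurd hx (by simp)
    · obtain ⟨h1, h2⟩ := h.2 x rfl
      obtain ⟨h3, h4⟩ := h'.2 x' rfl
      obtain ⟨y, hy, hy'⟩ := h.1 x'.1 h3 h4
      obtain ⟨z, hz, hz'⟩ := h'.1 x.1 h1 h2
      have e1 : x = y := Option.some.inj hy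
      have e2 : x' = z := Option.some.inj hz
      subst e1 e2
      congr 1
      exact Subtype.ext (le_antisymm hz' hy')

theorem IsE.exi (a : ℤ → ℤ) (p : ℤ) : ∃ o : Fc a, IsE a p o := by
  by_cases h : ∃ y, y < p ∧ p ≤ a y
  · obtain ⟨m, ⟨hm1, hm2⟩, hm3⟩ := Int.exists_greatest_of_bdd
      (P := fun y => y < p ∧ p ≤ a y) ⟨p, fun z hz => hz.1.le⟩ h
    refine ⟨some ⟨m, by omega⟩, fun y h1 h2 => ⟨_, rfl, hm3 y ⟨h1, h2⟩⟩, ?_⟩
    intro x hx
    have e : (⟨m, by omega⟩ : {x : ℤ // x < a x}) = x := Option.some.inj hx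
    rw [← e]
    exact ⟨hm1, hm2⟩
  · refine ⟨none, fun y h1 h2 => absurd ⟨y, h1, h2⟩ h, ?_⟩
    intro x hx
    exact absurd hx (by simp)

theorem goalENC : Pool.Agent.Helper50.MB.ENC := by
  intro l h a ha
  choose enc henc using IsE.exi a
  refine ⟨enc, ?_, ?_, ?_, ?_, ?_, ?_⟩
  · intro p hp
    refine (henc p).uniq ⟨fun y h1 h2 => ?_, fun x hx => absurd hx (by simp)⟩
    have := ha.out y (Or.inl (by omega))
    omega
  · intro p hp
    refine (henc p).uniq ⟨fun y h1 h2 => ?_, fun x hx => absurd hx (by simp)⟩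
    have h3 := ha.out (a y) (Or.inr (by omega))
    rw [ha.inv] at h3
    omega
  · intro x
    refine (henc _).uniq ⟨fun y h1 h2 => ⟨x, rfl, by omega⟩, fun z hz => ?_⟩
    have e : x = z := Option.some.inj hz
    rw [← e]
    have := x.2
    omega
  · intro x
    refine (henc _).uniq ⟨fun y h1 h2 => ⟨x, rfl, ?_⟩, fun z hz => ?_⟩
    · by_contra hc
      have := ha.nc x.1 y (by omega) h1
      omega
    · have e : x = z := Option.some.inj hz
      rw [← e]
      exact ⟨x.2, le_rfl⟩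
  · intro x
    have hx := x.2
    refine (henc _).uniq ⟨fun y h1 h2 => ?_, fun z hz => ?_⟩
    · have n1 : y ≠ a x.1 := by
        rintro rfl
        rw [ha.inv] at h2
        omega
      have n2 : y ≠ x.1 := by
        rintro rfl
        omega
      have n3 : y < x.1 := by
        by_contra hc
        have := ha.nc x.1 y (by omega) (by omega)
        omega
      exact (henc x.1).1 y n3 (by omega)
    · obtain ⟨h1, h2⟩ := (henc x.1).2 z hz
      have n1 : a z.1 ≠ x.1 := by
        intro h3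
        have := ha.inv z.1
        rw [h3] at this
        omega
      have := ha.nc z.1 x.1 h1 (by omega)
      omega
  · intro x y hxy
    exact ((henc x.1).2 y hxy).1

end Pool.Agent.Helper35.MB
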