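import Pool.Agent.Helper50.MB.Goals

/-! Project MB, packet FIN: finiteness. -/

namespace Pool.Agent.Helper35.MB

open Pool.Agent.Helper50.MB Pool.Agent.Helper33.Meander

theorem nci_mem {l h : ℤ} {a : ℤ → ℤ} (ha : NCI l h a) {z : ℤ} (h1 : l ≤ z) (h2 : z < h) :
    l ≤ a z ∧ a z < h := by
  by_contra hc
  have h3 := ha.out (a z) (by
    by_contra hd
    push Not at hd
    exact hc hd)
  rw [ha.inv] at h3
  exact ha.ne z h1 h2 h3.symm

/-- The matching of `Fin (2 N)`. -/
def toF (N : ℕ) (a : ℤ → ℤ) (ha : NCI (-(N : ℤ)) N a) (x : Fin (2 * N)) : Fin (2 * N) :=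
  ⟨(a ((x : ℤ) - N) + N).toNat, by
    have h1 := x.2
    have h2 := nci_mem ha (z := (x : ℤ) - N) (by omega) (by omega)
    omega⟩

theorem toF_coe (N : ℕ) (a : ℤ → ℤ) (ha : NCI (-(N : ℤ)) N a) (x : Fin (2 * N)) :
    ((toF N a ha x : ℕ) : ℤ) = a ((x : ℤ) - N) + N := by
  have h1 := x.2
  have h2 := nci_mem ha (z := (x : ℤ) - N) (by omega) (by omega)
  show (((a ((x : ℤ) - N) + N).toNat : ℕ) : ℤ) = _
  omega

theorem toF_nc (N : ℕ) (a : ℤ → ℤ) (ha : NCI (-(N : ℤ)) N a) : NCMatching (toF N a ha) where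
  invol x := by
    apply Fin.ext
    have h1 := toF_coe N a ha (toF N a ha x)
    have h2 := toF_coe N a ha x
    rw [h2, add_sub_cancel_right, ha.inv] at h1
    omega
  ne x := by
    intro h
    have h1 := toF_coe N a ha x
    rw [h] at h1
    have h2 := x.2
    exact ha.ne ((x : ℤ) - N) (by omega) (by omega) (by omega)
  nc x y hxy hy := by
    have h1 := toF_coe N a ha x
    have h2 := toF_coe N a ha y
    have h3 : (x : ℕ) < y := hxy
    have h4 : (y : ℕ) < toF N a ha x := hy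
    have h5 := ha.nc ((x : ℤ) - N) ((y : ℤ) - N) (by omega) (by omega)
    show (toF N a ha y : ℕ) < toF N a ha x
    omega

theorem toF_inj (N : ℕ) (a b : ℤ → ℤ) (ha : NCI (-(N : ℤ)) N a) (hb : NCI (-(N : ℤ)) N b)
    (h : toF N a ha = toF N b hb) : a = b := by
  funext z
  by_cases hz : -(N : ℤ) ≤ z ∧ z < N
  · have h1 := toF_coe N a ha ⟨(z + N).toNat, by omega⟩
    have h2 := toF_coe N b hb ⟨(z + N).toNat, by omega⟩
    rw [h] at h1
    have h3 : (((z + N).toNat : ℕ) : ℤ) - N = z := by omega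
    simp only [h3] at h1 h2
    omega
  · have h4 : z < -(N : ℤ) ∨ (N : ℤ) ≤ z := by omega
    rw [ha.out z h4, hb.out z h4]

theorem goalFIN : Pool.Agent.Helper50.MB.FIN := by
  intro h N
  have hinj : Function.Injective (fun a : T h N =>
      (⟨toF N a.1 a.2.1.nci, toF_nc N a.1 a.2.1.nci⟩ :
        {u : Fin (2 * N) → Fin (2 * N) // NCMatching u})) := by
    intro a b hab
    exact Subtype.ext (toF_inj N a.1 b.1 a.2.1.nci b.2.1.nci (congrArg Subtype.val hab))
  refine ⟨Finite.of_injective _ hinj, ?_⟩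
  calc cT h N ≤ Nat.card {u : Fin (2 * N) → Fin (2 * N) // NCMatching u} :=
        Nat.card_le_card_of_injective _ hinj
    _ ≤ 2 ^ (2 * N) := card_NC_le _
    _ ≤ 16 ^ N := by
      rw [pow_mul]
      exact Nat.pow_le_pow_left (by norm_num) N

end Pool.Agent.Helper35.MB
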